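import Pool.Agent.W169.HF.DefsB

/-!
# Project HF: local convexity
-/

set_option autoImplicit false

open Complex MeasureTheory Filter Topology Set
open scoped ComplexConjugate

namespace Pool.Agent.W397.HF

open Pool.Agent.W169.HF

lemma re_cos_div (x y v : ℝ) : (Complex.cos ((((x : ℂ) + y * I) - v * I) / 4)).re =
    Real.cos (x / 4) * Real.cosh ((y - v) / 4) := by
  have e : (((x : ℂ) + y * I) - v * I) / 4 = ((x / 4 : ℝ) : ℂ) + (((y - v) / 4 : ℝ) : ℂ) * I := by
    push_cast; ring
  rw [e, Complex.cos_add_mul_I, ← Complex.ofReal_cos, ← Complex.ofReal_cosh, ← Complex.ofReal_sin,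
    ← Complex.ofReal_sinh]
  simp only [Complex.sub_re, Complex.mul_re, Complex.mul_im, Complex.ofReal_re, Complex.ofReal_im,
    Complex.I_re, Complex.I_im]
  ring

lemma cosh_ge (t : ℝ) : |t| / 2 ≤ Real.cosh t := by
  rw [← Real.cosh_abs, Real.cosh_eq]
  have h1 := Real.add_one_le_exp |t|
  have h2 := Real.exp_pos (-|t|)
  linarith

theorem lcx : S_LCX := by
  intro K ϑ0 ϑ κ R1 hK hϑ0 hϑ0' hϑ hϑ3 hκ hR1
  set lam : ℝ := κ / 2 with hlam
  have hl : 0 < lam := by positivity
  set R : ℝ := R1 + 64 / lam with hR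
  have hRR1 : R1 ≤ R := by
    have : 0 < 64 / lam := by positivity
    linarith
  refine ⟨κ / 2, R, K * (10 + R ^ 2), by positivity, hRR1, ?_⟩
  intro ℓ G f hℓ hUD hside u0 hu0 hu0'
  have hG := hUD.hG
  have hK0 : 0 < K := by linarith
  have hℓ0 : 0 < ℓ := lt_of_lt_of_le (by positivity) hℓ
  have hf : Differentiable ℂ f := hUD.slow.1
  -- the auxiliary function
  set g : ℂ → ℂ := fun u => -(((lam * ℓ : ℝ) : ℂ) * Complex.cos ((u - (u0.im : ℂ) * I) / 4)) with hg
  have hgd : Differentiable ℂ g := by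
    rw [hg]
    fun_prop
  have hgre : ∀ u : ℂ, (g u).re = -(lam * ℓ * (Real.cos (u.re / 4) *
      Real.cosh ((u.im - u0.im) / 4))) := by
    intro u
    have h1 := re_cos_div u.re u.im u0.im
    rw [Complex.re_add_im] at h1
    rw [hg]
    simp only [Complex.neg_re]
    rw [Complex.re_ofReal_mul, h1]
  set F : ℂ → ℂ := fun u => f u * cexp (g u) with hF
  have hFd : Differentiable ℂ F := hf.mul hgd.cexp
  have hFn : ∀ u, ‖F u‖ = ‖f u‖ * Real.exp (g u).re := by
    intro u
    rw [hF]
    simp only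
    rw [norm_mul, Complex.norm_exp]
  set C : ℝ := G * Real.exp (ℓ * ϑ + κ / 2 * ℓ) with hC
  have hcos : ∀ x : ℝ, |x| ≤ 3 → 1 / 2 ≤ Real.cos (x / 4) := by
    intro x hx
    have h1 := Real.one_sub_sq_div_two_le_cos (x := x / 4)
    have h2 : x ^ 2 ≤ 9 := by
      have := sq_abs x
      nlinarith [abs_nonneg x]
    nlinarith
  have hfactor : ∀ u : ℂ, |u.re| ≤ 3 → Real.exp (g u).re ≤ 1 := by
    intro u hu
    rw [Real.exp_le_one_iff, hgre]
    have h1 := hcos u.re hu
    have h2 := Real.one_le_cosh ((u.im - u0.im) / 4)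
    have : 0 ≤ Real.cos (u.re / 4) * Real.cosh ((u.im - u0.im) / 4) := by positivity
    have h3 : 0 ≤ lam * ℓ := by positivity
    nlinarith [mul_nonneg h3 this]
  have hfrR : ∀ u : ℂ, |u.re| ≤ ϑ → |u.im| = R → ‖F u‖ ≤ C := by
    intro u hu hu'
    have hx3 : |u.re| ≤ 3 := hu.trans hϑ3
    have h1 := hUD.up u
    have h2 : ℓ * max |u.re| ϑ0 ≤ ℓ * 3 := by
      apply mul_le_mul_of_nonneg_left _ hℓ0.le
      exact max_le hx3 (by linarith)
    have h3 : K * (1 + ‖u‖ ^ 2) ≤ ℓ := by
      refine le_trans ?_ hℓ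
      apply mul_le_mul_of_nonneg_left _ hK0.le
      rw [← Complex.normSq_eq_norm_sq, Complex.normSq_apply]
      have h4 : u.re * u.re ≤ 9 := by
        have := abs_mul_abs_self u.re
        nlinarith [abs_nonneg u.re]
      have h5 : u.im * u.im = R ^ 2 := by
        have := abs_mul_abs_self u.im
        rw [hu'] at this
        linarith
      linarith
    have h6 : ‖f u‖ ≤ G * Real.exp (4 * ℓ) := by
      refine h1.trans (mul_le_mul_of_nonneg_left (Real.exp_le_exp.2 ?_) hG.le)
      linarith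
    have h7 : Real.exp (g u).re ≤ Real.exp (-(4 * ℓ)) := by
      rw [Real.exp_le_exp, hgre, neg_le_neg_iff]
      have h8 := hcos u.re hx3
      have h9 : 8 / lam ≤ Real.cosh ((u.im - u0.im) / 4) := by
        refine le_trans ?_ (cosh_ge _)
        rw [abs_div]
        have h10 : 64 / lam ≤ |u.im - u0.im| := by
          have := abs_sub_abs_le_abs_sub u.im u0.im
          rw [hu'] at this
          linarith
        have h11 : |(4 : ℝ)| = 4 := abs_of_pos (by norm_num)
        rw [h11]
        have h12 : 8 / lam = 64 / lam / 4 / 2 := by ring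
        rw [h12]
        gcongr
      have h13 : (1 / 2) * (8 / lam) ≤ Real.cos (u.re / 4) * Real.cosh ((u.im - u0.im) / 4) :=
        mul_le_mul h8 h9 (by positivity) (by linarith)
      calc 4 * ℓ = lam * ℓ * ((1 / 2) * (8 / lam)) := by field_simp; ring
        _ ≤ _ := mul_le_mul_of_nonneg_left h13 (by positivity)
    rw [hFn]
    calc ‖f u‖ * Real.exp (g u).re ≤ (G * Real.exp (4 * ℓ)) * Real.exp (-(4 * ℓ)) :=
          mul_le_mul h6 h7 (Real.exp_pos _).le (by positivity)
      _ = G := by rw [mul_assoc, ← Real.exp_add]; simp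
      _ ≤ C := by
        rw [hC]
        apply le_mul_of_one_le_right hG.le
        apply Real.one_le_exp
        positivity
  have hfrS : ∀ u : ℂ, |u.re| = ϑ → |u.im| ≤ R → ‖F u‖ ≤ C := by
    intro u hu hu'
    have h1 : ‖f u‖ ≤ C := by
      rcases abs_choice u.re with h | h
      · exact hside u (by rw [← hu, h]) hu'
      · obtain ⟨ε, hε, hfe⟩ := hUD.fe
        rw [hfe u, norm_mul, hε, one_mul, Complex.norm_conj]
        apply hside
        · rw [Complex.neg_re, Complex.conj_re, ← h, hu]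
        · rw [Complex.neg_im, Complex.conj_im, neg_neg]; exact hu'
    rw [hFn]
    have h2 := hfactor u (by rw [hu]; exact hϑ3)
    calc ‖f u‖ * Real.exp (g u).re ≤ C * 1 :=
          mul_le_mul h1 h2 (Real.exp_pos _).le (by positivity)
      _ = C := mul_one _
  have hRpos : 0 < R := by linarith
  have hmain : ‖F u0‖ ≤ C := by
    have hb : Bornology.IsBounded (Ioo (-ϑ) ϑ ×ℂ Ioo (-R) R) :=
      (Metric.isBounded_Ioo _ _).reProdIm (Metric.isBounded_Ioo _ _)
    apply Complex.norm_le_of_forall_mem_frontier_norm_le hb hFd.diffContOnCl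
    · intro z hz
      rw [Complex.frontier_reProdIm, frontier_Ioo (by linarith), frontier_Ioo (by linarith),
        closure_Ioo (by linarith), closure_Ioo (by linarith)] at hz
      rcases hz with ⟨h1, h2⟩ | ⟨h1, h2⟩
      · apply hfrR z (abs_le.2 h1)
        rcases h2 with h2 | h2
        · rw [h2, abs_neg, abs_of_pos hRpos]
        · rw [h2, abs_of_pos hRpos]
      · apply hfrS z _ (abs_le.2 h2)
        rcases h1 with h1 | h1
        · rw [h1, abs_neg, abs_of_pos hϑ]
        · rw [h1, abs_of_pos hϑ]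
    · rw [Complex.closure_reProdIm, closure_Ioo (by linarith), closure_Ioo (by linarith)]
      exact ⟨abs_le.1 hu0, abs_le.1 (hu0'.trans hRR1)⟩
  -- conclusion
  rw [hFn, hgre, sub_self, zero_div, Real.cosh_zero, mul_one] at hmain
  have h1 : Real.cos (u0.re / 4) ≤ 1 := Real.cos_le_one _
  have h2 : Real.exp (-(lam * ℓ)) ≤ Real.exp (-(lam * ℓ * Real.cos (u0.re / 4))) := by
    rw [Real.exp_le_exp, neg_le_neg_iff]
    exact mul_le_of_le_one_right (by positivity) h1
  have h3 : ‖f u0‖ * Real.exp (-(lam * ℓ)) ≤ C :=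
    (mul_le_mul_of_nonneg_left h2 (norm_nonneg _)).trans hmain
  calc ‖f u0‖ = ‖f u0‖ * Real.exp (-(lam * ℓ)) * Real.exp (lam * ℓ) := by
        rw [mul_assoc, ← Real.exp_add]; simp
    _ ≤ C * Real.exp (lam * ℓ) := mul_le_mul_of_nonneg_right h3 (Real.exp_pos _).le
    _ = G * Real.exp (ℓ * ϑ + κ * ℓ) := by
      rw [hC, mul_assoc, ← Real.exp_add]
      congr 2
      rw [hlam]; ring

end Pool.Agent.W397.HF
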